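import Pool.Agent.H23.PL.Targets

/-!
# Squares among the primitive parts of the Pell numbers: values of cyclotomic polynomials
-/

set_option autoImplicit false

open Finset Polynomial Pool.Agent.H23.PL

namespace Pool.Agent.H73.PL

theorem be_ne : be ≠ 0 := by
  unfold be
  have h : (1 : ℝ) < √2 := by
    rw [Real.lt_sqrt (by norm_num)]
    norm_num
  linarith

theorem al_sub : al - be ≠ 0 := by
  unfold al be
  have h : (0 : ℝ) < √2 := Real.sqrt_pos.2 (by norm_num)
  linarith

theorem al_sq : al ^ 2 = 2 * al + 1 := by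
  unfold al
  linear_combination sq2

theorem be_sq : be ^ 2 = 2 * be + 1 := by
  unfold be
  linear_combination sq2

theorem binet {u L : ℕ → ℕ} (h : PellL u L) : ∀ r : ℕ,
    (u r : ℝ) * (al - be) = al ^ r - be ^ r ∧
      (u (r + 1) : ℝ) * (al - be) = al ^ (r + 1) - be ^ (r + 1)
  | 0 => by
    rw [h.u0, h.u1]
    simp
  | r + 1 => by
    obtain ⟨h1, h2⟩ := binet h r
    refine ⟨h2, ?_⟩
    have e : (u (r + 1 + 1) : ℝ) = 2 * u (r + 1) + u r := by
      rw [h.us r]
      push_cast
      ring
    rw [e, add_mul, mul_assoc, h1, h2, pow_succ al (r + 1), pow_succ be (r + 1), pow_succ al r,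
      pow_succ be r]
    linear_combination (-al ^ r) * al_sq + be ^ r * be_sq

theorem upos {u L : ℕ → ℕ} (h : PellL u L) : ∀ r : ℕ, 0 < u (r + 1) ∧ 0 < u (r + 2)
  | 0 => by
    rw [h.us 0, h.u1, h.u0]
    norm_num
  | r + 1 => by
    obtain ⟨h1, h2⟩ := upos h r
    refine ⟨h2, ?_⟩
    rw [h.us (r + 1)]
    omega

theorem pf_LCY : T_LCY := by
  intro u L h
  have hL1 : L 1 = 1 := by
    have := h.pr 1 le_rfl
    rw [Nat.divisors_one, prod_singleton, h.u1] at this
    exact this
  refine ⟨hL1, ?_⟩
  set c : ℕ → ℝ := fun d => be ^ d.totient * eval (al / be) (cyclotomic d ℝ) with hc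
  set c' : ℕ → ℝ := fun d => if d = 1 then 1 else c d with hc'
  have hc1 : c 1 = al - be := by
    simp only [hc, Nat.totient_one, pow_one, cyclotomic_one, eval_sub, eval_X, eval_one]
    rw [mul_sub, mul_div_cancel₀ _ be_ne, mul_one]
  have hprod : ∀ r, 1 ≤ r → ∏ d ∈ r.divisors, c d = al ^ r - be ^ r := by
    intro r hr
    simp only [hc]
    rw [prod_mul_distrib, prod_pow_eq_pow_sum, Nat.sum_totient, ← eval_prod,
      prod_cyclotomic_eq_X_pow_sub_one hr, eval_sub, eval_pow, eval_X, eval_one, mul_sub,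
      div_pow, mul_div_cancel₀ _ (pow_ne_zero _ be_ne), mul_one]
  have hprod' : ∀ r, 1 ≤ r → ∏ d ∈ r.divisors, c' d = u r := by
    intro r hr
    have hmem : 1 ∈ r.divisors := Nat.one_mem_divisors.2 (by omega)
    have e1 : ∏ d ∈ r.divisors, c d = (al - be) * ∏ d ∈ r.divisors, c' d := by
      rw [← mul_prod_erase _ _ hmem, ← mul_prod_erase r.divisors c' hmem, hc1]
      have e2 : c' 1 = 1 := by simp only [hc', if_true]
      rw [e2, one_mul]
      congr 1
      refine prod_congr rfl fun d hd => ?_
      simp only [hc']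
      rw [if_neg (ne_of_mem_erase hd)]
    rw [hprod r hr, ← (binet h r).1, mul_comm] at e1
    exact (mul_left_cancel₀ al_sub e1).symm
  have hmain : ∀ r, 1 ≤ r → (L r : ℝ) = c' r := by
    intro r
    induction r using Nat.strong_induction_on with
    | _ r ih =>
      intro hr
      have h1 : ∏ d ∈ r.divisors, (L d : ℝ) = u r := by
        rw [← h.pr r hr]
        push_cast
        rfl
      have h2 := hprod' r hr
      have hins : ∀ f : ℕ → ℝ, ∏ d ∈ r.divisors, f d = (∏ d ∈ r.properDivisors, f d) * f r := by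
        intro f
        rw [← Nat.insert_self_properDivisors (by omega : r ≠ 0),
          prod_insert Nat.self_notMem_properDivisors, mul_comm]
      rw [hins] at h1 h2
      have h3 : ∏ d ∈ r.properDivisors, (L d : ℝ) = ∏ d ∈ r.properDivisors, c' d := by
        refine prod_congr rfl fun d hd => ?_
        rw [Nat.mem_properDivisors] at hd
        exact ih d hd.2 (Nat.pos_of_dvd_of_pos hd.1 (by omega))
      have hu : (u r : ℝ) ≠ 0 := by
        obtain ⟨k, rfl⟩ : ∃ k, r = k + 1 := ⟨r - 1, by omega⟩
        exact_mod_cast (upos h k).1.ne'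
      have h4 : ∏ d ∈ r.properDivisors, c' d ≠ 0 := by
        intro h0
        rw [h0, zero_mul] at h2
        exact hu h2.symm
      rw [h3, ← h2] at h1
      exact mul_left_cancel₀ h4 h1
  intro r hr
  rw [hmain r (by omega)]
  simp only [hc', hc]
  rw [if_neg (by omega)]

end Pool.Agent.H73.PL
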